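import Mathlib
import Pool.Agent.Run7.h742.SZ.Cp

/-! Campana points on projective `n`-space over `ℚ`, for the C-pairs `(ℙ^n, e H_∞ + ∑ (1 - 1 / m_j) D_j)`
with arbitrary (possibly singular, possibly tangent) hypersurfaces `D_j` different from the
hyperplane `H_∞`, `e = 0` or `1`. The integral points of affine space (and the points with
denominators in any given set) which are Campana points of the pair form a power-saving part of all
these points, and one set of relative density zero contains, up to finitely many heights, the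
Campana points of all such pairs. On the line the bounds are uniform in the pair. -/

set_option autoImplicit false

namespace Pool.Agent.Results.MP_464c42_nt.IntegralPointsAllPairs

open MvPolynomial

/-- `max |x_j|` -/
def H {n : ℕ} (x : Fin (n + 1) → ℤ) : ℕ := Finset.univ.sup fun j => (x j).natAbs

/-- the rational points of the affine space `𝔸^n = ℙ^n ∖ {x 0 = 0}` with denominator in `M` and
with `H x ≤ B`: the point `(x 1 / x 0, …, x n / x 0)` is given by its coprime integer coordinates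
with `x 0 > 0`, and `x 0` is its denominator. `M = {1}`: the integral points; `M` the set of the
natural numbers composed of primes in `S`: the `S`-integral points; `M = ℕ`: all rational points -/
def Points (n : ℕ) (M : Set ℕ) (B : ℕ) : Set (Fin (n + 1) → ℤ) :=
  {x | Finset.univ.gcd x = 1 ∧ 0 < x 0 ∧ (x 0).toNat ∈ M ∧ H x ≤ B}

/-- `P j = 0` are distinct hypersurfaces of degree `k j`, irreducible over `ℚ`, none of which is the
hyperplane `x 0 = 0` -/
structure IsDivisor {n q : ℕ} (P : Fin q → MvPolynomial (Fin (n + 1)) ℤ) (k : Fin q → ℕ) :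
    Prop where
  hP : ∀ j, (P j).IsHomogeneous (k j)
  irreducible : ∀ j, Irreducible (map (Int.castRingHom ℚ) (P j))
  distinct : ∀ i j, i ≠ j →
    ¬ Associated (map (Int.castRingHom ℚ) (P i)) (map (Int.castRingHom ℚ) (P j))
  affine : ∀ j, ¬ Associated (map (Int.castRingHom ℚ) (P j)) (X 0)

/-- the real number `1 / m`, with `1 / ∞ = 0` -/
noncomputable def recip (m : ℕ∞) : ℝ := 1 / (m.toNat : ℝ)

/-- `v ≠ 0`, and all primes outside `S` which divide `v` divide it at least `m` times (there are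
none if `m = ∞`) -/
def Full (m : ℕ∞) (S : Finset ℕ) (v : ℤ) : Prop :=
  v ≠ 0 ∧ ∀ p : ℕ, p.Prime → p ∉ S → (p : ℤ) ∣ v → ∃ e : ℕ, m ≤ e ∧ (p : ℤ) ^ e ∣ v

/-- the points of affine space which are Campana points of the pair with the divisors `P j = 0` and
the multiplicities `m j`, for the ring of `S`-integers -/
def Campana {n q : ℕ} (P : Fin q → MvPolynomial (Fin (n + 1)) ℤ) (m : Fin q → ℕ∞)
    (S : Finset ℕ) : Set (Fin (n + 1) → ℤ) :=
  {x | x 0 ≠ 0 ∧ ∀ j, Full (m j) S (eval x (P j))}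

/-- the points `x` of affine space which are Campana points for the ring of `S`-integers, for some
set `S` of primes which may depend on the point, of weight `∑_{p ∈ S} log p ≤ η log (H x)` -/
def CampanaWithin {n q : ℕ} (P : Fin q → MvPolynomial (Fin (n + 1)) ℤ) (m : Fin q → ℕ∞)
    (η : ℝ) : Set (Fin (n + 1) → ℤ) :=
  {x | ∃ S : Finset ℕ, ∑ p ∈ S, Real.log (p : ℝ) ≤ η * Real.log (H x) ∧ x ∈ Campana P m S}

/-- the proportion of the points of `Q` among the points with denominators in `M` of height at most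
`B` is at most a negative power of `B`, uniformly in the set `M` -/
def PowerSaving (n : ℕ) (Q : Set (Fin (n + 1) → ℤ)) : Prop :=
  ∃ δ : ℝ, 0 < δ ∧ ∃ C : ℝ, 0 < C ∧ ∀ B : ℕ, 1 ≤ B → ∀ M : Set ℕ,
    ((Points n M B ∩ Q).ncard : ℝ) ≤ C * (B : ℝ) ^ (-δ) * ((Points n M B).ncard : ℝ)

/-- the pair `(ℙ^n, H_∞ + ∑ (1 - 1 / m j) D_j)`, `D_j` of degree `k j`, is of general type:
`K + Δ` has positive degree -/
def GeneralType {q : ℕ} (n : ℕ) (k : Fin q → ℕ) (m : Fin q → ℕ∞) : Prop :=
  0 < -((n : ℝ) + 1) + 1 + ∑ j, (k j : ℝ) * (1 - recip (m j))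

/-- the value `d ^ k f (t / d)` at the point `t / d` of a polynomial `f` of degree `k` -/
def value (k : ℕ) (f : Polynomial ℤ) (t d : ℤ) : ℤ :=
  ∑ i ∈ Finset.range (k + 1), f.coeff i * t ^ i * d ^ (k - i)

/-- the integers `t`, `|t| ≤ B`, such that the point `t / d` of the line is a Campana point of the
pair given by the polynomials `f j` of degree `k j` and the multiplicities `m j`, for some set `S` of
primes (depending on `t`) of weight at most `η log B` -/
def LineCampana {r : ℕ} (k : Fin r → ℕ) (f : Fin r → Polynomial ℤ) (m : Fin r → ℕ∞) (d : ℤ)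
    (η : ℝ) (B : ℕ) : Set ℤ :=
  {t | |t| ≤ B ∧ ∃ S : Finset ℕ, ∑ p ∈ S, Real.log (p : ℝ) ≤ η * Real.log B ∧
    ∀ j, Full (m j) S (value (k j) (f j) t d)}

theorem full_of {m : ℕ∞} (hm : 1 ≤ m) {S : Finset ℕ} {v : ℤ} (h : Full m S v) :
    Run7.h742.CP.Full m.toNat S v := by
  intro p hp hpS hpv
  obtain ⟨e, he, hpe⟩ := h.2 p hp hpS hpv
  have htop : m ≠ ⊤ := by
    rintro rfl
    exact absurd he (by simp)
  have h1 : ((m.toNat : ℕ) : ℕ∞) = m := ENat.coe_toNat htop
  refine ⟨?_, (pow_dvd_pow _ ?_).trans hpe⟩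
  · intro h0
    rw [h0] at h1
    rw [← h1] at hm
    simp at hm
  · rw [← h1] at he
    exact_mod_cast he

theorem camp_sub {n q : ℕ} (P : Fin q → MvPolynomial (Fin (n + 1)) ℤ) (m : Fin q → ℕ∞)
    (hm : ∀ j, 1 ≤ m j) (η : ℝ) :
    CampanaWithin P m η ⊆ Run7.h742.CP.Camp P (fun j => (m j).toNat) η := by
  rintro x ⟨S, hS, hx, hfull⟩
  exact ⟨hx, S, hS, fun j => ⟨(hfull j).1, full_of (hm j) (hfull j)⟩⟩

/-- for a fixed `S` -/
theorem within {n q : ℕ} (P : Fin q → MvPolynomial (Fin (n + 1)) ℤ) (m : Fin q → ℕ∞)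
    (S : Finset ℕ) {η : ℝ} (hη : 0 < η) :
    ∃ T : ℕ, ∀ x ∈ Campana P m S, T < H x → x ∈ CampanaWithin P m η := by
  have hlim : Filter.Tendsto (fun B : ℕ => η * Real.log (B : ℝ)) Filter.atTop Filter.atTop :=
    (Real.tendsto_log_atTop.comp tendsto_natCast_atTop_atTop).const_mul_atTop hη
  obtain ⟨T, hT⟩ := Filter.eventually_atTop.mp
    (hlim.eventually_ge_atTop (∑ p ∈ S, Real.log (p : ℝ)))
  exact ⟨T, fun x hx hTx => ⟨S, hT _ hTx.le, hx⟩⟩

theorem general {n q : ℕ} {k : Fin q → ℕ} {m : Fin q → ℕ∞} (h : GeneralType n k m)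
    (hk : ∑ j, (k j - 2) ≤ n) :
    ∑ j, (k j : ℝ) * recip (m j) < ∑ j, ((min (k j) 2 : ℕ) : ℝ) := by
  unfold GeneralType at h
  have h1 : ∑ j, (k j : ℝ) * (1 - recip (m j)) =
      ∑ j, (k j : ℝ) - ∑ j, (k j : ℝ) * recip (m j) := by
    rw [← Finset.sum_sub_distrib]
    exact Finset.sum_congr rfl fun j _ => by ring
  have h2 : ∑ j, k j ≤ n + ∑ j, min (k j) 2 := by
    have h3 : ∑ j, k j = ∑ j, (k j - 2) + ∑ j, min (k j) 2 := by
      rw [← Finset.sum_add_distrib]
      exact Finset.sum_congr rfl fun j _ => by omega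
    omega
  have h3 : (∑ j, (k j : ℝ)) ≤ n + ∑ j, ((min (k j) 2 : ℕ) : ℝ) := by exact_mod_cast h2
  linarith

/-- **Campana points at integral points of affine space.** Let `n ≥ 1`.
(1) The sets `Points n M B` are finite, and the number of the points of one denominator `d ≤ B` is
at least `c B ^ (n - δ)` for every `δ > 0`.
(2) Let `D_j` be distinct hypersurfaces of degree `k j`, irreducible over `ℚ`, different from the
hyperplane at infinity, `m j ∈ {1, 2, …, ∞}`. If `∑ k j / m j + η < ∑ min (k j) 2` then the Campana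
points, for sets `S` of weight at most `η log (H x)`, form a power-saving part of the points,
uniformly in the set `M` of the denominators. In particular (3) this holds for all pairs of general
type `(ℙ^n, H_∞ + ∑ (1 - 1 / m_j) D_j)` with `∑ max (k j - 2, 0) ≤ n`, and for every `S`.
(4) There is one set `E` of relative density zero among the points with denominators in `M`,
uniformly in `M`, which contains all Campana points of height greater than some `T` of every such
pair, `T` depending on the pair and on `η` (or `S`).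
(5) On the line the bound is uniform: for all polynomials `f j` of degree `k j` with coefficients of
size at most `B ^ α` whose product has no multiple factor over `ℚ`, and all denominators `d`, `|d| ≤ B`,
at most `C B ^ (1 - c)` of the points `t / d`, `|t| ≤ B`, are Campana points, if
`∑ (k j + α) / m j + η < ∑ min (k j) 2`. -/
theorem result :
    (∀ n : ℕ, 1 ≤ n →
      ((∀ (M : Set ℕ) (B : ℕ), (Points n M B).Finite) ∧
        (∀ δ : ℝ, 0 < δ → ∃ c : ℝ, 0 < c ∧ ∀ B d : ℕ, 1 ≤ d → d ≤ B →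
          c * (B : ℝ) ^ ((n : ℝ) - δ) ≤ ((Points n {d} B).ncard : ℝ))) ∧
      (∀ (q : ℕ) (P : Fin q → MvPolynomial (Fin (n + 1)) ℤ) (k : Fin q → ℕ) (m : Fin q → ℕ∞),
        IsDivisor P k → (∀ j, 1 ≤ m j) →
        (∀ η : ℝ, ∑ j, (k j : ℝ) * recip (m j) + η < ∑ j, ((min (k j) 2 : ℕ) : ℝ) →
          PowerSaving n (CampanaWithin P m η)) ∧
        (GeneralType n k m → ∑ j, (k j - 2) ≤ n → ∀ S : Finset ℕ,
          PowerSaving n (Campana P m S))) ∧
      ∃ E : Set (Fin (n + 1) → ℤ),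
        (∀ ε : ℝ, 0 < ε → ∃ B₀ : ℕ, ∀ B : ℕ, B₀ ≤ B → ∀ M : Set ℕ,
          ((Points n M B ∩ E).ncard : ℝ) ≤ ε * ((Points n M B).ncard : ℝ)) ∧
        ∀ (q : ℕ) (P : Fin q → MvPolynomial (Fin (n + 1)) ℤ) (k : Fin q → ℕ) (m : Fin q → ℕ∞),
          IsDivisor P k → (∀ j, 1 ≤ m j) →
          (∀ η : ℝ, ∑ j, (k j : ℝ) * recip (m j) + η < ∑ j, ((min (k j) 2 : ℕ) : ℝ) →
            ∃ T : ℕ, ∀ x ∈ CampanaWithin P m η, T < H x → x ∈ E) ∧
          (GeneralType n k m → ∑ j, (k j - 2) ≤ n → ∀ S : Finset ℕ,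
            ∃ T : ℕ, ∀ x ∈ Campana P m S, T < H x → x ∈ E)) ∧
    ∀ (r : ℕ) (k : Fin r → ℕ) (m : Fin r → ℕ∞), (∀ j, 1 ≤ k j) → (∀ j, 1 ≤ m j) →
      ∀ α η : ℝ, ∑ j, ((k j : ℝ) + α) * recip (m j) + η < ∑ j, ((min (k j) 2 : ℕ) : ℝ) →
        ∃ c : ℝ, 0 < c ∧ ∃ C : ℝ, 0 < C ∧ ∀ B : ℕ, 1 ≤ B → ∀ f : Fin r → Polynomial ℤ,
          (∀ j, (f j).natDegree = k j) → (∀ j i, |((f j).coeff i : ℝ)| ≤ (B : ℝ) ^ α) →
          Squarefree ((∏ j, f j).map (Int.castRingHom ℚ)) → ∀ d : ℤ, d ≠ 0 → |d| ≤ B →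
            ((LineCampana k f m d η B).ncard : ℝ) ≤ C * (B : ℝ) ^ (1 - c) := by
  refine ⟨fun n hn => ⟨⟨fun M B => Run7.h742.VI.Pts_finite n M B,
    fun δ hδ => Run7.h742.VI.Pts_lower hn hδ⟩, fun q P k m hD hm => ?_, ?_⟩, ?_⟩
  · have hC : Run7.h742.VI.Comps P k := ⟨hD.hP, hD.irreducible, hD.distinct, hD.affine⟩
    have key : ∀ η : ℝ, ∑ j, (k j : ℝ) * recip (m j) + η < ∑ j, ((min (k j) 2 : ℕ) : ℝ) →
        PowerSaving n (CampanaWithin P m η) := by
      intro η hη
      have h1 := Run7.h742.CP.camp_ps hn P k (fun j => (m j).toNat) hC (η := η) (by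
        refine lt_of_le_of_lt (le_of_eq ?_) hη
        congr 1
        refine Finset.sum_congr rfl fun j _ => ?_
        unfold recip
        rw [mul_one_div])
      exact h1.mono (camp_sub P m hm η)
    refine ⟨key, fun hG hk S => ?_⟩
    have h1 := general hG hk
    obtain ⟨η, hη⟩ : ∃ η : ℝ, η = (∑ j, ((min (k j) 2 : ℕ) : ℝ) -
      ∑ j, (k j : ℝ) * recip (m j)) / 2 := ⟨_, rfl⟩
    have hη0 : 0 < η := by rw [hη]; linarith
    obtain ⟨T, hT⟩ := within P m S hη0
    refine Run7.h742.SZ.PS.mono (Run7.h742.SZ.PS.union (key η (by rw [hη]; linarith))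
      (Run7.h742.SZ.PS.small hn T)) ?_
    intro x hx
    by_cases hTx : T < H x
    · exact Or.inl (hT x hx hTx)
    · refine Or.inr ?_
      show ((Run7.h742.VI.Ht x : ℕ) : ℝ) ≤ (T : ℝ)
      have : Run7.h742.VI.Ht x = H x := rfl
      rw [this]
      exact_mod_cast not_lt.1 hTx
  · obtain ⟨E, hE, hall⟩ := Run7.h742.CP.camp_univ hn
    refine ⟨E, hE, fun q P k m hD hm => ?_⟩
    have hC : Run7.h742.VI.Comps P k := ⟨hD.hP, hD.irreducible, hD.distinct, hD.affine⟩
    have key : ∀ η : ℝ, ∑ j, (k j : ℝ) * recip (m j) + η < ∑ j, ((min (k j) 2 : ℕ) : ℝ) →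
        ∃ T : ℕ, ∀ x ∈ CampanaWithin P m η, T < H x → x ∈ E := by
      intro η hη
      obtain ⟨T, hT⟩ := hall q P k (fun j => (m j).toNat) hC η (by
        refine lt_of_le_of_lt (le_of_eq ?_) hη
        congr 1
        refine Finset.sum_congr rfl fun j _ => ?_
        unfold recip
        rw [mul_one_div])
      exact ⟨T, fun x hx hTx => hT x (camp_sub P m hm η hx) hTx⟩
    refine ⟨key, fun hG hk S => ?_⟩
    have h1 := general hG hk
    obtain ⟨η, hη⟩ : ∃ η : ℝ, η = (∑ j, ((min (k j) 2 : ℕ) : ℝ) -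
      ∑ j, (k j : ℝ) * recip (m j)) / 2 := ⟨_, rfl⟩
    have hη0 : 0 < η := by rw [hη]; linarith
    obtain ⟨T, hT⟩ := within P m S hη0
    obtain ⟨T', hT'⟩ := key η (by rw [hη]; linarith)
    exact ⟨max T T', fun x hx hTx => hT' x (hT x hx ((le_max_left _ _).trans_lt hTx))
      ((le_max_right _ _).trans_lt hTx)⟩
  · intro r k m hk hm α η hη
    obtain ⟨c, hc, C, hC, h⟩ := Run7.h742.CP.line k (fun j => (m j).toNat) hk (α := α) (η := η)
      (by
        refine lt_of_le_of_lt (le_of_eq ?_) hη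
        congr 1
        refine Finset.sum_congr rfl fun j _ => ?_
        unfold recip
        rw [mul_one_div])
    refine ⟨c, hc, C, hC, fun B hB f h1 h2 h3 d hd hdB => ?_⟩
    refine le_trans ?_ (h B hB f h1 h2 h3 d hd hdB)
    have hfin : (Run7.h742.CP.CampL k f (fun j => (m j).toNat) d η B).Finite := by
      refine (Finset.finite_toSet (Finset.Icc (-(B : ℤ)) B)).subset fun t ht => ?_
      rw [Finset.mem_coe, Finset.mem_Icc, ← abs_le]
      exact ht.1
    exact_mod_cast Set.ncard_le_ncard (fun t ht => by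
      obtain ⟨ht1, S, hS, hf⟩ := ht
      refine ⟨ht1, S, hS, fun j => ?_⟩
      have h4 := hf j
      have h5 : value (k j) (f j) t d = (Run7.h742.UN.scale (k j) d (f j)).eval t := by
        rw [Run7.h742.UN.scale_eval]
        rfl
      rw [h5] at h4
      exact ⟨h4.1, full_of (hm j) h4⟩) hfin

end Pool.Agent.Results.MP_464c42_nt.IntegralPointsAllPairs
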