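import Mathlib
import Pool.Agent.Run7.h28.ST.Main
import Pool.Agent.Run7.h28.BV.UNear

/-!
# Sparse integral points of affine varieties lie in finitely many images of tori

Let `V` be an affine variety over a number field `K`, for example the complement of the support of
`Δ` in `X` for a pair `(X, Δ)` all of whose multiplicities are infinite, and `x : V → 𝔸^n` a finite
morphism.  We describe all points of `V` for which the coordinates of `x` are sums of boundedly many
elements of a finitely generated group `Γ` and near which the fibre is split; such points are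
`S`-integral.  They lie in the images `P (Γ^r)` of finitely many morphisms `P` from tori to `V`.
Consequently, if such points are Zariski dense in `V`, or in a subvariety `W` of `V`, then `V`,
respectively `W`, is dominated by a torus, and it is not of log general type.
-/

open Height NumberField IsDedekindDomain

namespace Pool.Agent.Results.MP_464c42_nt.IntegralPointsTorusImages

/-- The places of a number field, infinite or finite. -/
abbrev Place (K : Type) [Field K] [NumberField K] : Type :=
  InfinitePlace K ⊕ HeightOneSpectrum (𝓞 K)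

/-- The absolute value of a place, as normalised in Mathlib. -/
noncomputable def absv {K : Type} [Field K] [NumberField K] : Place K → AbsoluteValue K ℝ
  | Sum.inl w => w.1
  | Sum.inr v => (FinitePlace.mk v).1

/-- The polynomial `F (x, y_i)` in the coordinates `x_l` and `y_i`. -/
noncomputable def eqn {K : Type} [Field K] {n m : ℕ} (F : Polynomial (MvPolynomial (Fin n) K))
    (i : Fin m) : MvPolynomial (Fin n ⊕ Fin m) K :=
  F.eval₂ (MvPolynomial.rename Sum.inl :
    MvPolynomial (Fin n) K →ₐ[K] MvPolynomial (Fin n ⊕ Fin m) K).toRingHom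
    (MvPolynomial.X (Sum.inr i))

/-- The polynomial `F (x, Y)`. -/
noncomputable def fibre {K : Type} [Field K] {n : ℕ} (x : Fin n → K)
    (F : Polynomial (MvPolynomial (Fin n) K)) : Polynomial K :=
  F.map (MvPolynomial.eval x)

/-- Laurent polynomials in `r` variables over `K`. -/
abbrev Laurent (K : Type) [Field K] (r : ℕ) : Type := AddMonoidAlgebra K (Fin r → ℤ)

/-- The value `∑ c_m u ^ m` of the Laurent polynomial `P = ∑ c_m t ^ m` at a point `u` of the torus. -/
noncomputable def value {K : Type} [Field K] {r : ℕ} (u : Fin r → Kˣ) (P : Laurent K r) : K :=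
  ∑ m ∈ P.coeff.support, P.coeff m * ((∏ l, u l ^ m l : Kˣ) : K)

/-- A tuple of Laurent polynomials, one for each coordinate: a map from a torus. -/
structure TorusMap (K : Type) [Field K] (σ : Type) : Type where
  /-- the dimension of the torus -/
  rank : ℕ
  /-- the coordinates of the map -/
  coord : σ → Laurent K rank

/-- The image of the map lies on the variety with the ideal `I`. -/
def TorusMap.LiesOn {K : Type} [Field K] {σ : Type} (P : TorusMap K σ)
    (I : Ideal (MvPolynomial σ K)) : Prop :=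
  ∀ G ∈ I, MvPolynomial.aeval P.coord G = 0

/-- The image of the map is dense in the affine variety with the ideal `I`: all polynomials which
vanish on it belong to `I`. -/
def TorusMap.Dominates {K : Type} [Field K] {σ : Type} (P : TorusMap K σ)
    (I : Ideal (MvPolynomial σ K)) : Prop :=
  ∀ G : MvPolynomial σ K, MvPolynomial.aeval P.coord G = 0 → G ∈ I

section

variable {K : Type} [Field K] [NumberField K]

/-- `x` is a sum of `k` elements of `Γ` with coefficients in `K` of height at most `M`. -/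
def IsSparse (Γ : Subgroup Kˣ) (k : ℕ) (M : ℝ) (x : K) : Prop :=
  ∃ (a : Fin k → K) (u : Fin k → Kˣ), (∀ r, mulHeight₁ (a r) ≤ M) ∧ (∀ r, u r ∈ Γ) ∧
    x = ∑ r, a r * (u r : K)

/-- After scaling, the polynomial `F` is `v`-adically close to a separable and split polynomial `E`
of degree `q` with coefficients of height at most `M`: there are `a, z ∈ Γ` of height at most
`M h ^ B` such that the coefficients of `a F (z Y) - E (Y)` of index at most `q` are at most
`M h ^ (-δ)` at `v`.  See `near_of_close` for the main example. -/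
def IsNearSplit (Γ : Subgroup Kˣ) (v : Place K) (B δ M h : ℝ) (q : ℕ) (F : Polynomial K) : Prop :=
  ∃ (a z : Kˣ) (E : Polynomial K), a ∈ Γ ∧ z ∈ Γ ∧ E.natDegree = q ∧ E.Separable ∧ E.Splits ∧
    (∀ j, mulHeight₁ (E.coeff j) ≤ M) ∧ mulHeight₁ (a : K) ≤ M * h ^ B ∧
    mulHeight₁ (z : K) ≤ M * h ^ B ∧
    ∀ j ≤ q, absv v ((a : K) * (z : K) ^ j * F.coeff j - E.coeff j) ≤ M * h ^ (-δ)

/-- `(x, y)` is a `K`-point of the affine scheme with the ideal `I`, the coordinates `x_l` are sums
of `k` elements of `Γ` with coefficients of height at most `M`, and the polynomials `F_i (x, Y)` are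
near split polynomials, with respect to `h = ∏ H (x_l)`. -/
def IsSparsePoint (Γ : Subgroup Kˣ) (v : Place K) (k : ℕ) (B δ M : ℝ) {n m : ℕ}
    (F : Fin m → Polynomial (MvPolynomial (Fin n) K)) (I : Ideal (MvPolynomial (Fin n ⊕ Fin m) K))
    (x : Fin n → K) (y : Fin m → K) : Prop :=
  (∀ G ∈ I, MvPolynomial.eval (Sum.elim x y) G = 0) ∧ (∀ l, IsSparse Γ k M (x l)) ∧
  ∀ i, IsNearSplit Γ v B δ M (∏ l, mulHeight₁ (x l)) (F i).natDegree (fibre x (F i))

end

lemma absv_eq {K : Type} [Field K] [NumberField K] (v : Place K) :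
    absv v = Pool.Agent.W180.OP.av v := by
  cases v with
  | inl w => rfl
  | inr w => rfl

lemma near_iff {K : Type} [Field K] [NumberField K] (Γ : Subgroup Kˣ) (v : Place K)
    (B δ M h : ℝ) (q : ℕ) (F : Polynomial K) :
    IsNearSplit Γ v B δ M h q F ↔ Pool.Agent.Run7.h28.BV.Near Γ v B δ M h q F := by
  unfold IsNearSplit Pool.Agent.Run7.h28.BV.Near
  rw [absv_eq]

/-- The main example of polynomials which are near a split polynomial: if the point `x` is
`v`-adically close to a fixed point `c` at which `F (c, Y)` has full degree and is separable and split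
over `K`, then `F (x, Y)` is near a split polynomial. -/
theorem near_of_close {K : Type} [Field K] [NumberField K] {n : ℕ}
    (F : Polynomial (MvPolynomial (Fin n) K)) (c : Fin n → K)
    (h1 : (fibre c F).natDegree = F.natDegree) (h2 : (fibre c F).Separable)
    (h3 : (fibre c F).Splits) (M : ℝ) : ∃ M' : ℝ, 1 ≤ M' ∧
      ∀ (Γ : Subgroup Kˣ) (v : Place K) (B δ h : ℝ) (x : Fin n → K), 0 ≤ B → 0 ≤ δ → 1 ≤ h →
        (∀ l, absv v (x l - c l) ≤ M * h ^ (-δ)) →
        IsNearSplit Γ v B δ M' h F.natDegree (fibre x F) := by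
  classical
  obtain ⟨C, hC, h⟩ := Pool.Agent.Run7.h28.BV.near_of_close F K
  obtain ⟨M0, hM0, hM1, hM2, hM3⟩ : ∃ M0 : ℝ, 1 ≤ M0 ∧ M ≤ M0 ∧
      (∀ j e, mulHeight₁ ((F.coeff j).coeff e) ≤ M0) ∧ ∀ l, mulHeight₁ (c l) ≤ M0 := by
    obtain ⟨D, hD⟩ : ∃ D : ℝ, D = 1 + |M| + ∑ j ∈ F.support, ∑ e ∈ (F.coeff j).support,
        mulHeight₁ ((F.coeff j).coeff e) + ∑ l, mulHeight₁ (c l) := ⟨_, rfl⟩
    have e1 : 0 ≤ ∑ j ∈ F.support, ∑ e ∈ (F.coeff j).support,
        mulHeight₁ ((F.coeff j).coeff e) :=
      Finset.sum_nonneg fun j _ => Finset.sum_nonneg fun e _ => (mulHeight₁_pos _).le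
    have e2 : 0 ≤ ∑ l, mulHeight₁ (c l) := Finset.sum_nonneg fun l _ => (mulHeight₁_pos _).le
    have e3 := abs_nonneg M
    have e4 := le_abs_self M
    refine ⟨D, by linarith, by linarith, fun j e => ?_, fun l => ?_⟩
    · by_cases he : (F.coeff j).coeff e = 0
      · rw [he]
        have : mulHeight₁ (0 : K) = 1 := mulHeight₁_zero
        linarith
      have hj : F.coeff j ≠ 0 := fun h => he (by rw [h, MvPolynomial.coeff_zero])
      have g1 := Finset.single_le_sum (f := fun e => mulHeight₁ ((F.coeff j).coeff e))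
        (fun _ _ => (mulHeight₁_pos _).le) (MvPolynomial.mem_support_iff.2 he)
      have g2 := Finset.single_le_sum (f := fun j => ∑ e ∈ (F.coeff j).support,
        mulHeight₁ ((F.coeff j).coeff e))
        (fun _ _ => Finset.sum_nonneg fun e _ => (mulHeight₁_pos _).le)
        (Polynomial.mem_support_iff.2 hj)
      linarith
    · have g1 := Finset.single_le_sum (f := fun l => mulHeight₁ (c l))
        (fun _ _ => (mulHeight₁_pos _).le) (Finset.mem_univ l)
      linarith
  have hid : ∀ x : Fin n → K, F.map (MvPolynomial.eval₂Hom (RingHom.id K) x) = fibre x F := by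
    intro x
    rfl
  refine ⟨(C * M0) ^ C, Real.one_le_rpow (by nlinarith) (by linarith),
    fun Γ v B δ h' x a1 a2 a3 a4 => ?_⟩
  rw [near_iff, ← hid]
  rw [absv_eq] at a4
  refine h Γ v B δ M0 h' (RingHom.id K) x c a1 a2 hM0 a3 hM2 hM3 (fun l => (a4 l).trans ?_) h1 h2 h3
  exact mul_le_mul_of_nonneg_right hM1 (Real.rpow_pos_of_pos (by linarith) _).le

/-- Let `K` be a number field, `Γ` a finitely generated subgroup of `Kˣ`, `v` a place of `K`,
`n, m, k` natural numbers and `B`, `M` and `δ > 0` real numbers.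

Let `V` be an affine scheme over `K` with the coordinates `x_1, …, x_n`, `y_1, …, y_m` and the ideal
`I`, such that each `y_i` satisfies an equation `F_i (x, y_i) = 0` on `V`, where `F_i` is monic in
`y_i` (so that `x : V → 𝔸^n` is finite).  Consider the *sparse points*: the points `(x, y)` of
`V (K)`, given with coordinates `x_l` which are sums of `k` elements of `Γ` with coefficients of
height at most `M`, such that the polynomials `F_i (x, Y)` are, after scaling by elements of `Γ`,
`v`-adically at distance at most `M h ^ (-δ)` from separable split polynomials over `K` with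
coefficients of height at most `M`, where `h = ∏ H (x_l)`.  The `y_i` are arbitrary.

* There are finitely many morphisms `P` over `K` from tori of dimensions `r_P` to `V` such that every
  sparse point is a value `(x, y) = P (u)` with `u` in `Γ ^ (r_P)`.
* If `W` is an integral closed subscheme of `V`, with the prime ideal `J ⊇ I`, such that the sparse
  points on `W` are Zariski dense in `W`, then there is a dominant morphism from a torus over `K` to
  `W`.  In particular `W` is not of log general type, unless it is a point. -/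
theorem result (K : Type) [Field K] [NumberField K] (Γ : Subgroup Kˣ) (hΓ : Γ.FG) (v : Place K)
    (n m k : ℕ) (B δ M : ℝ) (hδ : 0 < δ) (I : Ideal (MvPolynomial (Fin n ⊕ Fin m) K))
    (F : Fin m → Polynomial (MvPolynomial (Fin n) K)) (hFm : ∀ i, (F i).Monic)
    (hFI : ∀ i, eqn (F i) i ∈ I) :
    (∃ T : Set (TorusMap K (Fin n ⊕ Fin m)), T.Finite ∧ (∀ P ∈ T, P.LiesOn I) ∧
      ∀ (x : Fin n → K) (y : Fin m → K), IsSparsePoint Γ v k B δ M F I x y →
        ∃ P ∈ T, ∃ u : Fin P.rank → Kˣ, (∀ l, u l ∈ Γ) ∧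
          (∀ l, x l = value u (P.coord (Sum.inl l))) ∧
          ∀ i, y i = value u (P.coord (Sum.inr i))) ∧
    ∀ J : Ideal (MvPolynomial (Fin n ⊕ Fin m) K), J.IsPrime → I ≤ J →
      (∀ G : MvPolynomial (Fin n ⊕ Fin m) K,
        (∀ x y, IsSparsePoint Γ v k B δ M F J x y → MvPolynomial.eval (Sum.elim x y) G = 0) →
        G ∈ J) →
      ∃ P : TorusMap K (Fin n ⊕ Fin m), P.LiesOn J ∧ P.Dominates J := by
  classical
  have hone : ∀ x : Fin n → K, 1 ≤ ∏ l, mulHeight₁ (x l) := fun x => by
    have g2 := Finset.prod_le_prod (s := Finset.univ) (f := fun _ => (1 : ℝ))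
      (g := fun l => mulHeight₁ (x l)) (fun _ _ => zero_le_one)
      (fun l _ => one_le_mulHeight₁ (x l))
    rwa [Finset.prod_const_one] at g2
  have key : ∀ J : Ideal (MvPolynomial (Fin n ⊕ Fin m) K), I ≤ J →
      ∃ 𝓣 : Set (Pool.Agent.Run7.h28.ST.Fam K (Fin n ⊕ Fin m)), 𝓣.Finite ∧
        (∀ P ∈ 𝓣, ∀ G ∈ J, MvPolynomial.aeval P.2 G = 0) ∧
        ∀ (x : Fin n → K) (y : Fin m → K), IsSparsePoint Γ v k B δ M F J x y →
        ∃ P ∈ 𝓣, ∃ u : Fin P.1 → Kˣ, (∀ l, u l ∈ Γ) ∧
          ∀ i, Sum.elim x y i = Pool.Agent.Run7.h28.ST.evU u (P.2 i) := by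
    intro J hIJ
    obtain ⟨𝓣, h1, h2, h3⟩ := Pool.Agent.Run7.h28.ST.structureM n m k (max B 1) δ (max M 1) hδ Γ
      hΓ v J F hFm (fun i => hIJ (hFI i))
    refine ⟨𝓣, h1, h2, fun x y hxy => ?_⟩
    obtain ⟨a2, a3, a5⟩ := hxy
    have hx1 := hone x
    have hx0 : (0 : ℝ) < ∏ l, mulHeight₁ (x l) := by linarith
    have hMB : M * (∏ l, mulHeight₁ (x l)) ^ B ≤ max M 1 * (∏ l, mulHeight₁ (x l)) ^ (max B 1) :=
      mul_le_mul (le_max_left _ _) (Real.rpow_le_rpow_of_exponent_le hx1 (le_max_left _ _))
        (Real.rpow_pos_of_pos hx0 _).le (le_trans zero_le_one (le_max_right _ _))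
    refine h3 x y (∏ l, mulHeight₁ (x l)) hx1 a2 (fun l => ?_) (fun l => ?_) fun i => ?_
    · obtain ⟨a, u, g1, g2, g3⟩ := a3 l
      exact ⟨a, u, fun r => (g1 r).trans (le_max_left _ _), g2, g3⟩
    · have g1 : mulHeight₁ (x l) ≤ ∏ l, mulHeight₁ (x l) := by
        have g2 := Finset.prod_le_prod (s := Finset.univ.erase l) (f := fun _ => (1 : ℝ))
          (g := fun l => mulHeight₁ (x l)) (fun _ _ => zero_le_one)
          (fun l _ => one_le_mulHeight₁ (x l))
        rw [Finset.prod_const_one] at g2
        rw [← Finset.mul_prod_erase Finset.univ (fun l => mulHeight₁ (x l)) (Finset.mem_univ l)]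
        exact le_mul_of_one_le_right (mulHeight₁_pos _).le g2
      have g3 : (∏ l, mulHeight₁ (x l)) ≤ (∏ l, mulHeight₁ (x l)) ^ (max B 1) := by
        conv_lhs => rw [← Real.rpow_one (∏ l, mulHeight₁ (x l))]
        exact Real.rpow_le_rpow_of_exponent_le hx1 (le_max_right _ _)
      refine (g1.trans g3).trans (le_mul_of_one_le_left (Real.rpow_pos_of_pos hx0 _).le
        (le_max_right _ _))
    · obtain ⟨a, z, E, b1, b2, b3, b4, b5, b6, b7, b8, b9⟩ := (near_iff _ _ _ _ _ _ _ _).1 (a5 i)
      exact ⟨a, z, E, b1, b2, b3, b4, b5, fun j => (b6 j).trans (le_max_left _ _), b7.trans hMB,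
        b8.trans hMB, fun j hj => (b9 j hj).trans
        (mul_le_mul_of_nonneg_right (le_max_left _ _) (Real.rpow_pos_of_pos hx0 _).le)⟩
  refine ⟨?_, ?_⟩
  · obtain ⟨𝓣, h1, h2, h3⟩ := key I le_rfl
    refine ⟨(fun P : Pool.Agent.Run7.h28.ST.Fam K (Fin n ⊕ Fin m) =>
      (⟨P.1, P.2⟩ : TorusMap K (Fin n ⊕ Fin m))) '' 𝓣, h1.image _, ?_, ?_⟩
    · rintro _ ⟨P, hP, rfl⟩ G hG
      exact h2 P hP G hG
    · intro x y hxy
      obtain ⟨P, hP, u, hu, hi⟩ := h3 x y hxy
      refine ⟨_, ⟨P, hP, rfl⟩, u, hu, fun l => ?_, fun i => ?_⟩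
      · have := hi (Sum.inl l)
        rw [Pool.Agent.Run7.h28.ST.evU_eq] at this
        exact this
      · have := hi (Sum.inr i)
        rw [Pool.Agent.Run7.h28.ST.evU_eq] at this
        exact this
  · intro J hJ hIJ hdense
    obtain ⟨𝓣, h1, h2, h3⟩ := key J hIJ
    by_contra hcon
    push Not at hcon
    have h4 : ∀ P ∈ 𝓣, ∃ G : MvPolynomial (Fin n ⊕ Fin m) K,
        MvPolynomial.aeval P.2 G = 0 ∧ G ∉ J := by
      intro P hP
      have h5 := hcon ⟨P.1, P.2⟩ (h2 P hP)
      unfold TorusMap.Dominates at h5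
      push Not at h5
      exact h5
    choose G hG1 hG2 using h4
    have h6 : (∏ P ∈ h1.toFinset.attach, G P.1 (h1.mem_toFinset.1 P.2)) ∈ J := by
      refine hdense _ fun x y hxy => ?_
      obtain ⟨P, hP, u, -, hu⟩ := h3 x y hxy
      rw [map_prod]
      refine Finset.prod_eq_zero (i := (⟨P, h1.mem_toFinset.2 hP⟩ : {x // x ∈ h1.toFinset}))
        (Finset.mem_attach _ _) ?_
      have g1 := Pool.Agent.Run7.h28.ST.evU_aeval u P.2 (G P hP)
      rw [hG1 P hP, map_zero] at g1
      have g2 : Sum.elim x y = fun i => Pool.Agent.Run7.h28.ST.evU u (P.2 i) := funext hu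
      rw [g2, ← g1]
    rw [hJ.prod_mem_iff] at h6
    obtain ⟨P, -, hP⟩ := h6
    exact hG2 _ _ hP

end Pool.Agent.Results.MP_464c42_nt.IntegralPointsTorusImages
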