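import Mathlib
import Pool.Agent.Run7.h720.Camp

set_option autoImplicit false

/-!
# Short Campana points on smooth pairs over number fields

`K` is a number field, `X` a smooth projective variety of dimension `n` in `ℙ^(n + s)` with the
equations `G k = 0` (any number of them), `D = D_1 + ⋯ + D_q` a divisor of `X` with strict normal
crossings, `D_i` the subvariety of `X` with the equations `F i j = 0`, `j < w`, forms of degree `d i`,
`μ i` the multiplicity of `D_i` (possibly infinite) and `Δ = ∑ (1 - 1 / μ i) D_i`.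

Let `Γ` be a finitely generated subgroup of the multiplicative group of `K`. The Campana points `x`
considered are short: they have coordinate vectors which are sums of `r` vectors with entries of height
at most `B H(x) ^ δ`, multiplied by elements of `Γ`; and there is a number `ρ` of the same kind which
has simple zeros, exactly at the primes at which `x` meets `D` (up to an arbitrary cofactor `τ`, see
below).
-/

namespace Pool.Agent.Results.MP_464c42_nt.ShortCampanaPoints

open MvPolynomial NumberField IsDedekindDomain Height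
open Pool.Agent.K1H83.VN

section
variable {K : Type} [Field K]

/-- `X` is smooth of codimension `s` and `D` has strict normal crossings on `X`: over every extension
field, at every point `z` of `X`, for suitable `s` equations of `X` and one equation of each component
of `D` through `z`, all gradients at `z` are linearly independent. -/
def SmoothPair {m g q w : ℕ} (s : ℕ) (G : Fin g → MvPolynomial (Fin m) K)
    (F : Fin q → Fin w → MvPolynomial (Fin m) K) : Prop :=
  ∀ (L : Type) [Field L] [Algebra K L] (z : Fin m → L), z ≠ 0 → (∀ i, aeval z (G i) = 0) →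
    ∃ (a : Fin s → Fin g) (b : Fin q → Fin w), LinearIndependent L
      (Sum.elim (fun i => fun y => aeval z (pderiv y (G (a i))))
        (fun i : {i : Fin q // ∀ j, aeval z (F i j) = 0} =>
          fun y => aeval z (pderiv y (F i.1 (b i.1)))))

/-- The exceptional set given by the forms `Φ J` in `n + 1` variables, one for each choice `J` of
`n + 1` coordinates: `x` belongs to it if for all `J` the form `Φ J` vanishes at the coordinates
`x_J`. It is closed and, if all `Φ J` are different from zero, it contains no component of a variety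
`X` of dimension `n`: on the cone over a variety of dimension `n` some `n + 1` coordinates are
algebraically independent. -/
def Exceptional {m n : ℕ} (Φ : (Fin (n + 1) → Fin m) → MvPolynomial (Fin (n + 1)) K)
    (x : Fin m → K) : Prop :=
  ∀ J, aeval (fun k => x (J k)) (Φ J) = 0

/-- All `Φ J` are forms different from zero. -/
def AreForms {m n : ℕ} (Φ : (Fin (n + 1) → Fin m) → MvPolynomial (Fin (n + 1)) K) : Prop :=
  ∀ J, Φ J ≠ 0 ∧ ∃ k, (Φ J).IsHomogeneous k

/-- The columns of `A` are a basis of the tangent space at `x` of the affine cone over the variety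
with the equations `G k = 0` (the vectors orthogonal to all gradients of equations), the variety being
smooth of dimension `n` at `x`. -/
def IsTangentBasis {m n g : ℕ} (G : Fin g → MvPolynomial (Fin m) K) (x : Fin m → K)
    (A : Matrix (Fin m) (Fin (n + 1)) K) : Prop :=
  LinearIndependent K (fun (c : Fin (n + 1)) (j : Fin m) => A j c) ∧
    ∀ k c, ∑ j, aeval x (pderiv j (G k)) * A j c = 0

/-- `1 - 1 / μ`, where `1 / ∞ = 0` -/
noncomputable def coefficient (μ : ℕ∞) : ℝ := if μ = ⊤ then 1 else 1 - 1 / (μ.toNat : ℝ)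

variable [NumberField K]

/-! ### Heights, relative to `K` -/

/-- The local height `λ_{Z,v}(x)` at the prime `v` of the subvariety `Z` with the equations `F j = 0`,
forms of degree `d`: the intersection multiplicity `n_v(Z, x)` times `log N(v)`. -/
noncomputable def localHeight {m w : ℕ} (F : Fin w → MvPolynomial (Fin m) K) (d : ℕ)
    (v : HeightOneSpectrum (𝓞 K)) (x : Fin m → K) : ℝ :=
  Real.log ((⨆ i, FinitePlace.mk v (x i)) ^ d / ⨆ j, FinitePlace.mk v (aeval x (F j)))

/-- `log N(v)` -/
noncomputable def logNorm (v : HeightOneSpectrum (𝓞 K)) : ℝ :=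
  Real.log (Ideal.absNorm v.asIdeal : ℝ)

/-- Campana points over the ring of `T`-integers: at the primes outside `T` the intersection
multiplicity with `D_i` is zero or at least `μ i` (zero if `μ i = ∞`). -/
def IsCampana {m q w : ℕ} (T : Set (HeightOneSpectrum (𝓞 K)))
    (F : Fin q → Fin w → MvPolynomial (Fin m) K) (d : Fin q → ℕ) (μ : Fin q → ℕ∞)
    (x : Fin m → K) : Prop :=
  ∀ i, ∀ v ∉ T, localHeight (F i) (d i) v x = 0 ∨
    (μ i ≠ ⊤ ∧ (μ i).toNat * logNorm v ≤ localHeight (F i) (d i) v x)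

/-- The height `h_Z(x)` with respect to the subvariety `Z` with the equations `F j = 0`, forms of
degree `d`: the sum of all local heights is `d h(x)` minus the height of the vector of the
`F j (x)`. -/
noncomputable def componentHeight {m w : ℕ} (F : Fin w → MvPolynomial (Fin m) K) (d : ℕ)
    (x : Fin m → K) : ℝ :=
  d * logHeight x - logHeight (fun j => aeval x (F j))

/-- The height `h_K(x)` for the canonical class `K` of `X`. The Gauss map `γ` sends a point of `X` to
its embedded tangent space, `γ^* O(1) = K + (n + 1) H` for the hyperplane class `H`, and `h_K(x)` is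
the height of `γ(x)` (whose Plücker coordinates are the maximal minors of `A`) minus
`(n + 1) h(x)`. -/
noncomputable def canonicalHeight {m n : ℕ} (x : Fin m → K) (A : Matrix (Fin m) (Fin (n + 1)) K) :
    ℝ :=
  logHeight (fun J : Fin (n + 1) → Fin m => (A.submatrix J id).det) - (n + 1) * logHeight x

/-- The height `h_(K + Δ)(x)`, `Δ = ∑ (1 - 1 / μ i) D_i`. -/
noncomputable def pairHeight {m n q w : ℕ} (F : Fin q → Fin w → MvPolynomial (Fin m) K)
    (d : Fin q → ℕ) (μ : Fin q → ℕ∞) (x : Fin m → K) (A : Matrix (Fin m) (Fin (n + 1)) K) : ℝ :=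
  canonicalHeight x A + ∑ i, coefficient (μ i) * componentHeight (F i) (d i) x

/-- The pair `(X, Δ)` is of general type, `K + Δ` is big, in terms of heights: the height is at most
`a h_(K + Δ) + b` for some `a > 0` and `b`, at the rational points outside a proper closed
subset. (If `K + Δ` is big then, by Kodaira's lemma, `a (K + Δ) - H` is effective for some `a > 0`.) -/
def GeneralType {m g q w : ℕ} (n : ℕ) (G : Fin g → MvPolynomial (Fin m) K)
    (F : Fin q → Fin w → MvPolynomial (Fin m) K) (d : Fin q → ℕ) (μ : Fin q → ℕ∞) : Prop :=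
  ∃ (Ψ : (Fin (n + 1) → Fin m) → MvPolynomial (Fin (n + 1)) K) (a b : ℝ), AreForms Ψ ∧ 0 < a ∧
    ∀ x : Fin m → K, x ≠ 0 → (∀ k, aeval x (G k) = 0) → (∀ i, ∃ j, aeval x (F i j) ≠ 0) →
      ¬ Exceptional Ψ x → ∃ A : Matrix (Fin m) (Fin (n + 1)) K,
        IsTangentBasis G x A ∧ logHeight x ≤ a * pairHeight F d μ x A + b

/-! ### Short points -/

/-- `ord_v (z)` times the logarithm of the norm of the prime `v` -/
noncomputable def ord (v : HeightOneSpectrum (𝓞 K)) (z : K) : ℝ := -Real.log (FinitePlace.mk v z)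

/-- The counting function of the zeros of `z` outside `T`: the sum of the `ord v z` over the primes
`v` outside `T`. -/
noncomputable def counting (T : Set (HeightOneSpectrum (𝓞 K))) (z : K) : ℝ :=
  ∑ᶠ (v : HeightOneSpectrum (𝓞 K)) (_ : v ∉ T), ord v z

/-- `z` is a sum of `r` terms `c * γ` with `γ` in `Γ` and `c` of (multiplicative, relative) height at
most `R`. -/
def IsShort (Γ : Subgroup Kˣ) (r : ℕ) (R : ℝ) (z : K) : Prop :=
  ∃ (c : Fin r → K) (γ : Fin r → Kˣ), (∀ j, γ j ∈ Γ) ∧ (∀ j, mulHeight₁ (c j) ≤ R) ∧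
    z = ∑ j, c j * (γ j : K)

/-- The vector `x` is a sum of `r` terms `γ • c` with `γ` in `Γ` and `c` a vector with entries of
(multiplicative, relative) height at most `R`. -/
def IsShortPoint {m : ℕ} (Γ : Subgroup Kˣ) (r : ℕ) (R : ℝ) (x : Fin m → K) : Prop :=
  ∃ (c : Fin r → Fin m → K) (γ : Fin r → Kˣ), (∀ j, γ j ∈ Γ) ∧ (∀ j i, mulHeight₁ (c j i) ≤ R) ∧
    ∀ i, x i = ∑ j, c j i * (γ j : K)

/-- The numbers `ρ` and `τ`, integral outside `T`, control the intersection of the point `x` with
`D = D_1 + ⋯ + D_q` outside `T`: the multiplicities are at most those of `ρ ^ M * τ`, and `ρ` has only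
simple zeros outside `T`, at primes at which `x` meets `D`. -/
def Controls {m q w : ℕ} (T : Set (HeightOneSpectrum (𝓞 K)))
    (F : Fin q → Fin w → MvPolynomial (Fin m) K) (d : Fin q → ℕ) (M : ℕ) (x : Fin m → K)
    (ρ τ : K) : Prop :=
  ρ ≠ 0 ∧ τ ≠ 0 ∧ ∀ v ∉ T, 0 ≤ ord v ρ ∧ 0 ≤ ord v τ ∧
    ∑ i, localHeight (F i) (d i) v x ≤ M * ord v ρ + ord v τ ∧
    ord v ρ ≤ min (logNorm v) (∑ i, localHeight (F i) (d i) v x)

theorem coefficient_eq (μ : ℕ∞) : coefficient μ = 1 - ((μ.toNat : ℕ) : ℝ)⁻¹ := by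
  unfold coefficient
  split_ifs with h
  · rw [h]
    simp
  · rw [one_div]

end

/-- **The inequality for one pair.** -/
theorem orbifold (K : Type) [Field K] [NumberField K] (n s g q w : ℕ) (hn : 1 ≤ n)
    (G : Fin g → MvPolynomial (Fin (n + s + 1)) K) (e : Fin g → ℕ)
    (hG : ∀ k, (G k).IsHomogeneous (e k))
    (F : Fin q → Fin w → MvPolynomial (Fin (n + s + 1)) K) (d : Fin q → ℕ)
    (hF : ∀ i j, (F i j).IsHomogeneous (d i)) (hsm : SmoothPair s G F)
    (μ : Fin q → ℕ∞) (hμ : ∀ i, 1 ≤ μ i)
    (T : Set (HeightOneSpectrum (𝓞 K))) (hT : T.Finite) (Γ : Subgroup Kˣ) (hΓ : Γ.FG)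
    (r M : ℕ) (B ε : ℝ) (hε : 0 < ε) :
    ∃ (Φ : (Fin (n + 1) → Fin (n + s + 1)) → MvPolynomial (Fin (n + 1)) K) (δ C : ℝ),
      AreForms Φ ∧ 0 < δ ∧ ∀ (x : Fin (n + s + 1) → K) (ρ τ : K), x ≠ 0 →
        (∀ k, aeval x (G k) = 0) → ¬ Exceptional Φ x → (∀ i, ∃ j, aeval x (F i j) ≠ 0) →
        IsCampana T F d μ x → Controls T F d M x ρ τ →
        IsShortPoint Γ r (B * mulHeight x ^ δ) x → IsShort Γ r (B * mulHeight x ^ δ) ρ →
        ∀ A : Matrix (Fin (n + s + 1)) (Fin (n + 1)) K, IsTangentBasis G x A →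
          pairHeight F d μ x A ≤ counting T τ + ε * logHeight x + C := by
  classical
  have hJ := fun J : Fin (n + 1) → Fin (n + s + 1) =>
    Pool.Agent.Run7.h720.var_main K Γ hΓ T hT hn G F hsm (by omega) e hG d hF J r M B ε hε
  choose Φ k δ C hΦ0 hΦh hδ hmain using hJ
  obtain ⟨C2, hC2⟩ := Pool.Agent.Run7.h720.camp_count T hT F d hF μ hμ
  have hne : Nonempty (Fin (n + 1) → Fin (n + s + 1)) := ⟨fun _ => 0⟩
  obtain ⟨J1, hJ1⟩ := Finite.exists_min δ
  refine ⟨Φ, δ J1, ∑ J, |C J| + C2, fun J => ⟨hΦ0 J, k J, hΦh J⟩, hδ J1, ?_⟩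
  intro x ρ τ hx0 hxG hex hxF hcamp hctl hsx hsρ A hA
  obtain ⟨hρ0, hτ0, hctl⟩ := hctl
  unfold Exceptional at hex
  push Not at hex
  obtain ⟨J, hJ⟩ := hex
  have hord : ∀ (v : HeightOneSpectrum (𝓞 K)) (z : K), z ≠ 0 → 0 ≤ ord v z →
      Pool.Agent.W180.OP.fv v z ≤ 1 := by
    intro v z hz hv
    have h1 : ord v z = -Real.log (Pool.Agent.W180.OP.fv v z) := rfl
    rw [h1] at hv
    by_contra hcon
    push Not at hcon
    have := Real.log_pos hcon
    linarith
  have key := hmain J x ρ τ A hx0 hxG hJ hxF hρ0 hτ0 (fun v hv => hord v ρ hρ0 (hctl v hv).1)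
    (fun v hv => hord v τ hτ0 (hctl v hv).2.1)
    (Pool.Agent.Run7.h720.pshort_mono hx0 (one_le_mulHeight x) (hJ1 J) hsx)
    (Pool.Agent.Run7.h720.short_mono' hρ0 (one_le_mulHeight x) (hJ1 J) hsρ) (by
      intro v hv
      have h1 := (hctl v hv).2.2.1
      have h2 : (M : ℝ) * ord v ρ + ord v τ =
          -(M * Real.log (Pool.Agent.W180.OP.fv v ρ) +
            Real.log (Pool.Agent.W180.OP.fv v τ)) := by
        have e1 : ord v ρ = -Real.log (Pool.Agent.W180.OP.fv v ρ) := rfl
        have e2 : ord v τ = -Real.log (Pool.Agent.W180.OP.fv v τ) := rfl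
        rw [e1, e2]
        ring
      rw [h2] at h1
      exact h1) hA.1 hA.2
  have hcount := hC2 x ρ hx0 hxF hρ0 hcamp fun v hv => (hctl v hv).2.2.2
  have hcnt : ∀ x : K, Pool.Agent.Run7.h720.cnt T x = counting T x := fun x => rfl
  rw [hcnt, hcnt] at key
  rw [hcnt] at hcount
  have hCJ : C J ≤ ∑ J, |C J| := (le_abs_self _).trans
    (Finset.single_le_sum (f := fun J => |C J|) (fun J _ => abs_nonneg _) (Finset.mem_univ J))
  unfold pairHeight canonicalHeight componentHeight
  simp only [coefficient_eq, sub_mul, one_mul, Finset.sum_sub_distrib] at key ⊢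
  simp only [mul_sub, Finset.sum_sub_distrib] at hcount ⊢
  linarith

/-- **Main theorem.** Let `X` be a smooth projective variety of dimension `n ≥ 1` over the number field
`K` in `ℙ^(n + s)`, `D = D_1 + ⋯ + D_q` a divisor of `X` with strict normal crossings,
`Δ = ∑ (1 - 1 / μ i) D_i`, `1 ≤ μ i ≤ ∞`, `T` a finite set of primes of `K`, `Γ` a finitely generated
subgroup of the multiplicative group of `K`, `r` and `M` natural numbers and `B` a real number. We
consider the Campana points `x` of `(X, Δ)` over the `T`-integers, off `D`, and numbers `ρ`, `τ` which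
control the intersection of `x` and `D` (see `Controls`), such that `x` and `ρ` are sums of `r` terms
with coefficients of height at most `B H(x) ^ δ`.
* For every `ε > 0` there are a proper closed subset of `X` (see `Exceptional`), `δ > 0` and `C` with
  `h_(K + Δ)(x) ≤ N_T(τ) + ε h(x) + C` for all these points off this closed subset.
* If `(X, Δ)` is of general type there are a proper closed subset of `X`, `δ > 0` and `C` with
  `h(x) ≤ C (1 + N_T(τ))` for all these points off this closed subset. -/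
theorem result (K : Type) [Field K] [NumberField K] (n s g q w : ℕ) (hn : 1 ≤ n)
    (G : Fin g → MvPolynomial (Fin (n + s + 1)) K) (e : Fin g → ℕ)
    (hG : ∀ k, (G k).IsHomogeneous (e k))
    (F : Fin q → Fin w → MvPolynomial (Fin (n + s + 1)) K) (d : Fin q → ℕ)
    (hF : ∀ i j, (F i j).IsHomogeneous (d i)) (hsm : SmoothPair s G F)
    (μ : Fin q → ℕ∞) (hμ : ∀ i, 1 ≤ μ i)
    (T : Set (HeightOneSpectrum (𝓞 K))) (hT : T.Finite) (Γ : Subgroup Kˣ) (hΓ : Γ.FG)
    (r M : ℕ) (B : ℝ) :
    (∀ ε : ℝ, 0 < ε →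
      ∃ (Φ : (Fin (n + 1) → Fin (n + s + 1)) → MvPolynomial (Fin (n + 1)) K) (δ C : ℝ),
        AreForms Φ ∧ 0 < δ ∧ ∀ (x : Fin (n + s + 1) → K) (ρ τ : K), x ≠ 0 →
          (∀ k, aeval x (G k) = 0) → ¬ Exceptional Φ x → (∀ i, ∃ j, aeval x (F i j) ≠ 0) →
          IsCampana T F d μ x → Controls T F d M x ρ τ →
          IsShortPoint Γ r (B * mulHeight x ^ δ) x → IsShort Γ r (B * mulHeight x ^ δ) ρ →
          ∀ A : Matrix (Fin (n + s + 1)) (Fin (n + 1)) K, IsTangentBasis G x A →
            pairHeight F d μ x A ≤ counting T τ + ε * logHeight x + C) ∧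
    (GeneralType n G F d μ →
      ∃ (Φ : (Fin (n + 1) → Fin (n + s + 1)) → MvPolynomial (Fin (n + 1)) K) (δ C : ℝ),
        AreForms Φ ∧ 0 < δ ∧ ∀ (x : Fin (n + s + 1) → K) (ρ τ : K), x ≠ 0 →
          (∀ k, aeval x (G k) = 0) → ¬ Exceptional Φ x → (∀ i, ∃ j, aeval x (F i j) ≠ 0) →
          IsCampana T F d μ x → Controls T F d M x ρ τ →
          IsShortPoint Γ r (B * mulHeight x ^ δ) x → IsShort Γ r (B * mulHeight x ^ δ) ρ →
          logHeight x ≤ C * (1 + counting T τ)) := by
  classical
  refine ⟨fun ε hε => orbifold K n s g q w hn G e hG F d hF hsm μ hμ T hT Γ hΓ r M B ε hε, ?_⟩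
  rintro ⟨Ψ, a, b, hΨ, ha, hgt⟩
  obtain ⟨Φ, δ, C, hΦ, hδ, h⟩ := orbifold K n s g q w hn G e hG F d hF hsm μ hμ T hT Γ hΓ r M B
    (1 / (2 * a)) (by positivity)
  refine ⟨fun J => Φ J * Ψ J, δ, 2 * a + 2 * a * |C| + 2 * |b|, fun J => ⟨mul_ne_zero (hΦ J).1
    (hΨ J).1, ?_⟩, hδ, ?_⟩
  · obtain ⟨k, hk⟩ := (hΦ J).2
    obtain ⟨k', hk'⟩ := (hΨ J).2
    exact ⟨k + k', hk.mul hk'⟩
  · intro x ρ τ hx0 hxG hex hxF hcamp hctl hsx hsρ
    unfold Exceptional at hex
    push Not at hex
    obtain ⟨J, hJ⟩ := hex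
    rw [map_mul] at hJ
    have hex1 : ¬ Exceptional Φ x := fun h => left_ne_zero_of_mul hJ (h J)
    have hex2 : ¬ Exceptional Ψ x := fun h => right_ne_zero_of_mul hJ (h J)
    obtain ⟨A, hA, hle⟩ := hgt x hx0 hxG hxF hex2
    have h1 := h x ρ τ hx0 hxG hex1 hxF hcamp hctl hsx hsρ A hA
    have hN : 0 ≤ counting T τ := finsum_nonneg fun v => finsum_nonneg fun hv =>
      (hctl.2.2 v hv).2.1
    have h2 := mul_le_mul_of_nonneg_left h1 ha.le
    have e1 : a * (counting T τ + 1 / (2 * a) * logHeight x + C) =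
        a * counting T τ + logHeight x / 2 + a * C := by
      field_simp
    rw [e1] at h2
    have h3 : logHeight x ≤ 2 * a * counting T τ + 2 * a * C + 2 * b := by linarith
    have h4 := mul_le_mul_of_nonneg_left (le_abs_self C) (by positivity : 0 ≤ 2 * a)
    have h5 := le_abs_self b
    have h6 : 0 ≤ (2 * a * |C| + 2 * |b|) * counting T τ := by positivity
    have h7 : 0 ≤ 2 * a := by positivity
    nlinarith

end Pool.Agent.Results.MP_464c42_nt.ShortCampanaPoints
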