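import Pool.Agent.Run7.h430.TW.KitSlow
import Pool.Agent.Results.MP_464c42_nt.HeightWindows

/-!
# Integral points of C-pairs of general type on the line and almost all orbits of Euler's function

Let `φ_k` be the `k`-th iterate of Euler's function, `φ_0(m) = m`. Let `f` be a positive multiplicative function of at most
polynomial growth such that `f p ≤ M p` for the large primes `p`, with different values at different large primes; for example
the identity, Euler's function or the sum of the divisors. Let `G` have steps bounded below by a positive constant and growth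
at most `v ^ d`, for example `G v = α v ^ d`.

Let `F` be a number field, let `S_0 ⊆ S_1 ⊆ S_2 ⊆ …` be finite sets of primes of `F` (for example all primes of norm at most
`j`), let `Δ = (1 - 1 / e_0) (0) + (1 - 1 / e_1) (1) + (1 - 1 / e_2) (∞)` with `σ = 1 / e_0 + 1 / e_1 + 1 / e_2 < 1` and
`s = min (4 σ / 7) (20 / 37)`, and let `κ ≥ 0`, `d s + κ < 1`. There is `K(m)` tending to infinity such that for almost all `m`,
for ALL `k, a ≤ K(m)`, `a ≥ 1`, with `v = f(φ_k(m))`, the C-pair has NO `S_{K(m)}`-integral point `x ∈ F` whose relative height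
`H(x) = exp ([F : ℚ] h(x))` satisfies `|H(x) - a G(v)| ≤ K(m) v ^ κ`.

(For `F = ℚ` and `d = 1` such a window contains the heights of about `v ^ (1 + κ)` rational numbers.) The iterates of Euler's
function are not multiplicative, and the values `φ_k(m)`, `m ≤ N`, form a thin set and are taken with very large
multiplicities; so this does not follow from the number of the integral points (`OrbifoldLines`, starting files), which is
used here. The tool is `Pool.Agent.N760.IT` (starting files), in the form of `Run7/h430/TW/KitSlow` (multiples, enlarged windows,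
families of sets).
-/

set_option autoImplicit false

namespace Pool.Agent.Results.MP_464c42_nt.TotientOrbits

open Finset Filter Topology
open NumberField IsDedekindDomain
open Pool.Agent.Results.MP_464c42_nt.HeightWindows (height recip IsIntegral count)

/-- A positive multiplicative function of at most polynomial growth, at most `M p` at the large primes `p` and with different
values at different large primes. -/
structure Moderate (f : ℕ → ℕ) : Prop where
  mul : ∀ m n : ℕ, Nat.Coprime m n → f (m * n) = f m * f n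
  pos : ∀ m : ℕ, 1 ≤ m → 1 ≤ f m
  growth : ∃ C D : ℕ, ∀ m : ℕ, 1 ≤ m → f m ≤ C * m ^ D
  prime : ∃ P M : ℕ, ∀ p : ℕ, P ≤ p → p.Prime → f p ≤ M * p ∧ ∀ q : ℕ, P ≤ q → q.Prime → f q = f p → q = p

/-- The steps of `G` are at least a positive constant, and `G` grows at most like `v ^ d`, `d ≥ 1`. -/
structure Expanding (G : ℕ → ℝ) (d : ℝ) : Prop where
  one_le : 1 ≤ d
  step : ∃ a : ℝ, 0 < a ∧ ∀ v : ℕ, 1 ≤ v → a ≤ G (v + 1) - G v
  growth : ∃ C : ℝ, ∀ v : ℕ, 1 ≤ v → G v ≤ C * (v : ℝ) ^ d

open Classical in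
/-- The proportion of the positive integers `m ≤ N` without the property `P` tends to `0`. -/
def AlmostAll (P : ℕ → Prop) : Prop :=
  Tendsto (fun N : ℕ => (((Icc 1 N).filter (fun m => ¬ P m)).card : ℝ) / N) atTop (𝓝 0)

/-- the value of `f` at the `k`-th iterate of Euler's function -/
def orb (f : ℕ → ℕ) (k m : ℕ) : ℕ := f (Nat.totient^[k] m)

theorem lm_of {f : ℕ → ℕ} (hf : Moderate f) : Pool.Agent.N733.TG.LM f := ⟨hf.mul, hf.pos, hf.growth, hf.prime⟩

theorem of_lm {f : ℕ → ℕ} (hf : Pool.Agent.N733.TG.LM f) : Moderate f := ⟨hf.mul, hf.pos, hf.growth, hf.prime⟩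

theorem ex_of {G : ℕ → ℝ} {d : ℝ} (h : Expanding G d) : Pool.Agent.N733.TG.Expanding G d := ⟨h.one_le, h.step, h.growth⟩

/-- **Theorem.** Let `F` be a number field, `S_0 ⊆ S_1 ⊆ …` finite sets of primes of `F`, `e_0, e_1, e_2 ∈ {1, 2, …, ∞}` with
`σ = 1 / e_0 + 1 / e_1 + 1 / e_2 < 1`, `f` `Moderate`, `G` `Expanding` with exponent `d`, `κ ≥ 0` and
`d min (4 σ / 7) (20 / 37) + κ < 1`. There is `K(m)` tending to infinity such that for almost all `m`, for all `k, a ≤ K(m)`,
`a ≥ 1`, with `v = f(φ_k(m))`, every `S_{K(m)}`-integral point `x ∈ F`, `x ≠ 0, 1`, of the C-pair with the orders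
`e_0, e_1, e_2` at `0, 1, ∞` satisfies `|exp ([F : ℚ] h(x)) - a G(v)| > K(m) v ^ κ`. -/
theorem result :
    (∀ (F : Type) [Field F] [NumberField F] (S : ℕ → Finset (HeightOneSpectrum (𝓞 F))), Monotone S →
      ∀ e : Fin 3 → ℕ∞, (∀ i, 1 ≤ e i) → ∑ i, recip (e i) < 1 →
      ∀ f : ℕ → ℕ, Moderate f → ∀ (G : ℕ → ℝ) (d : ℝ), Expanding G d → ∀ κ : ℝ, 0 ≤ κ →
      d * min (4 * (∑ i, recip (e i)) / 7) (20 / 37) + κ < 1 → ∃ K : ℕ → ℕ, Tendsto K atTop atTop ∧
        AlmostAll (fun m => ∀ k ≤ K m, ∀ a : ℕ, 1 ≤ a → a ≤ K m → ∀ x : F, IsIntegral (S (K m)) e x →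
          K m * (orb f k m : ℝ) ^ κ < |Real.exp ((Module.finrank ℚ F : ℝ) * height x) - a * G (orb f k m)|)) ∧
    (Moderate (fun m => m) ∧ Moderate Nat.totient ∧ Moderate (fun m => ∑ d ∈ m.divisors, d)) ∧
    ∀ a d : ℝ, 0 < a → 1 ≤ d → Expanding (fun v => a * (v : ℝ) ^ d) d := by
  refine ⟨fun F _ _ S hS e he hσ f hf G d hG κ hκ h2 => ?_,
    ⟨of_lm Pool.Agent.N760.IT.lm_id, of_lm Pool.Agent.N733.TG.lm_totient, of_lm Pool.Agent.N733.TG.lm_sigma⟩,
    fun a d ha hd => ?_⟩
  · have hσ0 : 0 ≤ ∑ i, recip (e i) := by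
      apply Finset.sum_nonneg
      intro i _
      unfold recip
      positivity
    obtain ⟨K, hK, h3⟩ := Run7.h430.TW.kit_slow (fun j : ℕ => {x : F | IsIntegral (S j) e x})
      (fun i j hij x hx => ⟨hx.1, hx.2.1, fun v hv => hx.2.2 v (fun h => hv (hS hij h))⟩)
      (fun x => Real.exp ((Module.finrank ℚ F : ℝ) * height x)) (lm_of hf) (ex_of hG)
      (s := min (4 * (∑ i, recip (e i)) / 7) (20 / 37)) (κ := κ) (le_min (by positivity) (by norm_num)) hκ h2
      (fun j => count F (S j) e he hσ)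
    exact ⟨K, hK, Pool.Agent.N826.IT.Orb.almostAll_mono h3 (fun m hm k hk a ha1 ha x hx => hm k hk a ha1 ha x hx)⟩
  · obtain ⟨h1, h2, h3⟩ := Pool.Agent.N733.TG.expanding_pow ha hd
    exact ⟨h1, h2, h3⟩

end Pool.Agent.Results.MP_464c42_nt.TotientOrbits
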